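import Mathlib

/-!
# MP_bacbeb_nt: the orbits of the 5-smooth starting values

`f n = (φ n + ψ n) / 2`.  For every `n = 2 ^ a * 3 ^ b * 5 ^ c` that is not `2 * 5 ^ c` with
`c ≥ 4` the orbit of `n` reaches `1` or a prime power, or is unbounded and meets the orbit of
`1488`, and it is determined which of the two happens.
-/

set_option autoImplicit false

namespace Pool.Agent.Results.MP_bacbeb_nt.FiveSmooth

/-- The function `φ̄` of the problem: `∏ p ^ (a - 1) * (p + 1)` over `p ^ a ∥ n`. -/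
noncomputable def psi (n : ℕ) : ℕ :=
  ∏ p ∈ n.primeFactors, p ^ (n.factorization p - 1) * (p + 1)

/-- The map `f n = (φ n + φ̄ n) / 2` of the problem. -/
noncomputable def f (n : ℕ) : ℕ := (Nat.totient n + psi n) / 2

theorem psi_mul {m n : ℕ} (h : m.Coprime n) : psi (m * n) = psi m * psi n := by
  rcases eq_or_ne m 0 with rfl | hm
  · have : n = 1 := by simpa using h
    subst this; simp [psi]
  rcases eq_or_ne n 0 with rfl | hn
  · have : m = 1 := by simpa using h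
    subst this; simp [psi]
  unfold psi
  rw [h.primeFactors_mul, Finset.prod_union h.disjoint_primeFactors]
  congr 1
  · refine Finset.prod_congr rfl fun p hp => ?_
    have hp' := Nat.mem_primeFactors.1 hp
    have h0 : n.factorization p = 0 := by
      apply Nat.factorization_eq_zero_of_not_dvd
      intro hd
      have h1 : p ∣ 1 := by
        have := Nat.dvd_gcd hp'.2.1 hd
        rwa [h] at this
      exact hp'.1.one_lt.ne' (Nat.dvd_one.1 h1)
    rw [Nat.factorization_mul hm hn, Finsupp.add_apply, h0, add_zero]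
  · refine Finset.prod_congr rfl fun p hp => ?_
    have hp' := Nat.mem_primeFactors.1 hp
    have h0 : m.factorization p = 0 := by
      apply Nat.factorization_eq_zero_of_not_dvd
      intro hd
      have h1 : p ∣ 1 := by
        have := Nat.dvd_gcd hd hp'.2.1
        rwa [h] at this
      exact hp'.1.one_lt.ne' (Nat.dvd_one.1 h1)
    rw [Nat.factorization_mul hm hn, Finsupp.add_apply, h0, zero_add]

theorem psi_prime_pow {p : ℕ} (hp : p.Prime) (k : ℕ) : psi (p ^ (k + 1)) = p ^ k * (p + 1) := by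
  unfold psi
  rw [Nat.primeFactors_prime_pow (Nat.succ_ne_zero k) hp, Finset.prod_singleton,
    hp.factorization_pow, Finsupp.single_eq_same]
  simp

theorem psi_prime {p : ℕ} (hp : p.Prime) : psi p = p + 1 := by
  simpa using psi_prime_pow hp 0

theorem f_eq {n A B C : ℕ} (h1 : Nat.totient n = A) (h2 : psi n = B) (h : A + B = 2 * C) :
    f n = C := by
  unfold f
  rw [h1, h2, h]
  simp

theorem f_prime_pow {p : ℕ} (hp : p.Prime) (k : ℕ) : f (p ^ (k + 1)) = p ^ (k + 1) := by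
  refine f_eq (Nat.totient_prime_pow_succ hp k) (psi_prime_pow hp k) ?_
  obtain ⟨v, rfl⟩ : ∃ v, p = v + 1 := ⟨p - 1, by have := hp.one_lt; omega⟩
  simp only [Nat.add_sub_cancel]
  ring

/-- `2 ^ (a+1) * 3 ^ (b+1) * w` for a prime `w ≥ 5`. -/
theorem f23w (a b w : ℕ) (hw : w.Prime) (h2 : w ≠ 2) (h3 : w ≠ 3) :
    f (2 ^ (a + 1) * 3 ^ (b + 1) * w) = 2 ^ a * 3 ^ b * (7 * w + 5) := by
  have c23 : Nat.Coprime (2 ^ (a + 1)) (3 ^ (b + 1)) := Nat.Coprime.pow _ _ (by norm_num)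
  have c2w : Nat.Coprime (2 ^ (a + 1)) w :=
    Nat.Coprime.pow_left _ ((Nat.coprime_primes Nat.prime_two hw).2 (Ne.symm h2))
  have c3w : Nat.Coprime (3 ^ (b + 1)) w :=
    Nat.Coprime.pow_left _ ((Nat.coprime_primes Nat.prime_three hw).2 (Ne.symm h3))
  have c : Nat.Coprime (2 ^ (a + 1) * 3 ^ (b + 1)) w := Nat.Coprime.mul_left c2w c3w
  refine f_eq (A := 2 ^ a * (2 - 1) * (3 ^ b * (3 - 1)) * (w - 1))
    (B := 2 ^ a * (2 + 1) * (3 ^ b * (3 + 1)) * (w + 1)) ?_ ?_ ?_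
  · rw [Nat.totient_mul c, Nat.totient_mul c23, Nat.totient_prime_pow_succ Nat.prime_two,
      Nat.totient_prime_pow_succ Nat.prime_three, Nat.totient_prime hw]
  · rw [psi_mul c, psi_mul c23, psi_prime_pow Nat.prime_two, psi_prime_pow Nat.prime_three,
      psi_prime hw]
  · obtain ⟨v, rfl⟩ : ∃ v, w = v + 1 := ⟨w - 1, by have := hw.one_lt; omega⟩
    simp only [Nat.add_sub_cancel]
    ring

/-- `2 ^ (a+1) * w` for an odd prime `w`. -/
theorem f2w (a w : ℕ) (hw : w.Prime) (h2 : w ≠ 2) :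
    f (2 ^ (a + 1) * w) = 2 ^ a * (2 * w + 1) := by
  have c2w : Nat.Coprime (2 ^ (a + 1)) w :=
    Nat.Coprime.pow_left _ ((Nat.coprime_primes Nat.prime_two hw).2 (Ne.symm h2))
  refine f_eq (A := 2 ^ a * (2 - 1) * (w - 1)) (B := 2 ^ a * (2 + 1) * (w + 1)) ?_ ?_ ?_
  · rw [Nat.totient_mul c2w, Nat.totient_prime_pow_succ Nat.prime_two, Nat.totient_prime hw]
  · rw [psi_mul c2w, psi_prime_pow Nat.prime_two, psi_prime hw]
  · obtain ⟨v, rfl⟩ : ∃ v, w = v + 1 := ⟨w - 1, by have := hw.one_lt; omega⟩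
    simp only [Nat.add_sub_cancel]
    ring

/-- `2 ^ (a+1) * (p * q)` for distinct odd primes `p, q`. -/
theorem f2pq (a p q : ℕ) (hp : p.Prime) (hq : q.Prime) (h2 : p ≠ 2) (h3 : q ≠ 2) (h : p ≠ q) :
    f (2 ^ (a + 1) * (p * q)) = 2 ^ a * (2 * p * q + p + q + 2) := by
  have c2 : Nat.Coprime (2 ^ (a + 1)) (p * q) :=
    Nat.Coprime.pow_left _ (Nat.Coprime.mul_right
      ((Nat.coprime_primes Nat.prime_two hp).2 (Ne.symm h2))
      ((Nat.coprime_primes Nat.prime_two hq).2 (Ne.symm h3)))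
  have c : Nat.Coprime p q := (Nat.coprime_primes hp hq).2 h
  refine f_eq (A := 2 ^ a * (2 - 1) * ((p - 1) * (q - 1)))
    (B := 2 ^ a * (2 + 1) * ((p + 1) * (q + 1))) ?_ ?_ ?_
  · rw [Nat.totient_mul c2, Nat.totient_mul c, Nat.totient_prime_pow_succ Nat.prime_two,
      Nat.totient_prime hp, Nat.totient_prime hq]
  · rw [psi_mul c2, psi_mul c, psi_prime_pow Nat.prime_two, psi_prime hp, psi_prime hq]
  · obtain ⟨v, rfl⟩ : ∃ v, p = v + 1 := ⟨p - 1, by have := hp.one_lt; omega⟩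
    obtain ⟨u, rfl⟩ : ∃ u, q = u + 1 := ⟨q - 1, by have := hq.one_lt; omega⟩
    simp only [Nat.add_sub_cancel]
    ring

/-- `p * q` for distinct odd primes `p, q`. -/
theorem fpq (p q : ℕ) (hp : p.Prime) (hq : q.Prime) (h : p ≠ q) :
    f (p * q) = p * q + 1 := by
  have c : Nat.Coprime p q := (Nat.coprime_primes hp hq).2 h
  refine f_eq (A := (p - 1) * (q - 1)) (B := (p + 1) * (q + 1)) ?_ ?_ ?_
  · rw [Nat.totient_mul c, Nat.totient_prime hp, Nat.totient_prime hq]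
  · rw [psi_mul c, psi_prime hp, psi_prime hq]
  · obtain ⟨v, rfl⟩ : ∃ v, p = v + 1 := ⟨p - 1, by have := hp.one_lt; omega⟩
    obtain ⟨u, rfl⟩ : ∃ u, q = u + 1 := ⟨q - 1, by have := hq.one_lt; omega⟩
    simp only [Nat.add_sub_cancel]
    ring

theorem f23 (a b : ℕ) : f (2 ^ (a + 1) * 3 ^ (b + 1)) = 2 ^ a * 3 ^ b * 7 := by
  have c23 : Nat.Coprime (2 ^ (a + 1)) (3 ^ (b + 1)) := Nat.Coprime.pow _ _ (by norm_num)
  refine f_eq (A := 2 ^ a * (2 - 1) * (3 ^ b * (3 - 1)))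
    (B := 2 ^ a * (2 + 1) * (3 ^ b * (3 + 1))) ?_ ?_ ?_
  · rw [Nat.totient_mul c23, Nat.totient_prime_pow_succ Nat.prime_two,
      Nat.totient_prime_pow_succ Nat.prime_three]
  · rw [psi_mul c23, psi_prime_pow Nat.prime_two, psi_prime_pow Nat.prime_three]
  · simp only [Nat.reduceSub, Nat.reduceAdd]
    ring

theorem f37 (b : ℕ) : f (7 * 3 ^ (b + 1)) = 2 ^ (0 + 1) * 3 ^ b * 11 := by
  have c : Nat.Coprime 7 (3 ^ (b + 1)) := Nat.Coprime.pow_right _ (by norm_num)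
  have h7 : Nat.Prime 7 := by norm_num
  refine f_eq (A := (7 - 1) * (3 ^ b * (3 - 1))) (B := (7 + 1) * (3 ^ b * (3 + 1))) ?_ ?_ ?_
  · rw [Nat.totient_mul c, Nat.totient_prime h7, Nat.totient_prime_pow_succ Nat.prime_three]
  · rw [psi_mul c, psi_prime h7, psi_prime_pow Nat.prime_three]
  · simp only [Nat.reduceSub, Nat.reduceAdd]
    ring

theorem f2_147 (a : ℕ) : f (2 ^ (a + 1) * 147) = 2 ^ (a + 1) * 3 ^ (2 + 1) * 7 := by
  have h7 : Nat.Prime 7 := by norm_num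
  have e : (147 : ℕ) = 3 * 7 ^ (1 + 1) := by norm_num
  have c2 : Nat.Coprime (2 ^ (a + 1)) (3 * 7 ^ (1 + 1)) := Nat.Coprime.pow_left _ (by norm_num)
  have c : Nat.Coprime 3 (7 ^ (1 + 1)) := by norm_num
  rw [e]
  refine f_eq (A := 2 ^ a * (2 - 1) * ((3 - 1) * (7 ^ 1 * (7 - 1))))
    (B := 2 ^ a * (2 + 1) * ((3 + 1) * (7 ^ 1 * (7 + 1)))) ?_ ?_ ?_
  · rw [Nat.totient_mul c2, Nat.totient_mul c, Nat.totient_prime_pow_succ Nat.prime_two,
      Nat.totient_prime Nat.prime_three, Nat.totient_prime_pow_succ h7]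
  · rw [psi_mul c2, psi_mul c, psi_prime_pow Nat.prime_two, psi_prime Nat.prime_three,
      psi_prime_pow h7]
  · simp only [Nat.reduceSub, Nat.reduceAdd, pow_succ]
    ring

/-- `y` is a term of the orbit of `x`. -/
def Reach (x y : ℕ) : Prop := ∃ j : ℕ, f^[j] x = y

theorem Reach.refl (x : ℕ) : Reach x x := ⟨0, rfl⟩

theorem Reach.trans {x y z : ℕ} (h1 : Reach x y) (h2 : Reach y z) : Reach x z := by
  obtain ⟨i, rfl⟩ := h1
  obtain ⟨j, rfl⟩ := h2
  exact ⟨j + i, Function.iterate_add_apply f j i x⟩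

theorem Reach.head {x y z : ℕ} (h1 : f x = y) (h2 : Reach y z) : Reach x z :=
  Reach.trans ⟨1, by simpa using h1⟩ h2

theorem s11 (a b : ℕ) : f (2 ^ (a + 1) * 3 ^ (b + 1) * 11) = 2 ^ (a + 1) * 3 ^ b * 41 := by
  rw [f23w a b 11 (by norm_num) (by norm_num) (by norm_num)]; ring
theorem s41 (a b : ℕ) : f (2 ^ (a + 1) * 3 ^ (b + 1) * 41) = 2 ^ (a + 2) * 3 ^ b * 73 := by
  rw [f23w a b 41 (by norm_num) (by norm_num) (by norm_num)]; ring
theorem s73 (a b : ℕ) : f (2 ^ (a + 1) * 3 ^ (b + 1) * 73) = 2 ^ (a + 2) * 3 ^ (b + 1) * 43 := by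
  rw [f23w a b 73 (by norm_num) (by norm_num) (by norm_num)]; ring
theorem s43 (a b : ℕ) : f (2 ^ (a + 1) * 3 ^ (b + 1) * 43) = 2 ^ (a + 1) * 3 ^ (b + 2) * 17 := by
  rw [f23w a b 43 (by norm_num) (by norm_num) (by norm_num)]; ring
theorem s17 (a b : ℕ) : f (2 ^ (a + 1) * 3 ^ (b + 1) * 17) = 2 ^ (a + 2) * 3 ^ b * 31 := by
  rw [f23w a b 17 (by norm_num) (by norm_num) (by norm_num)]; ring
theorem s31 (a b : ℕ) : f (2 ^ (a + 1) * 3 ^ (b + 1) * 31) = 2 ^ (a + 1) * 3 ^ (b + 1) * 37 := by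
  rw [f23w a b 31 (by norm_num) (by norm_num) (by norm_num)]; ring
theorem s37 (a b : ℕ) : f (2 ^ (a + 1) * 3 ^ (b + 1) * 37) = 2 ^ (a + 3) * 3 ^ (b + 1) * 11 := by
  rw [f23w a b 37 (by norm_num) (by norm_num) (by norm_num)]; ring
theorem s7 (a b : ℕ) : f (2 ^ (a + 1) * 3 ^ (b + 1) * 7) = 2 ^ (a + 1) * 3 ^ (b + 3) := by
  rw [f23w a b 7 (by norm_num) (by norm_num) (by norm_num)]; ring

/-- One turn of the cycle `11, 41, 73, 43, 17, 31, 37`: it trades `3 ^ 2` for `2 ^ 5`. -/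
theorem turn (a b : ℕ) :
    Reach (2 ^ (a + 1) * 3 ^ (b + 3) * 11) (2 ^ (a + 6) * 3 ^ (b + 1) * 11) := by
  refine Reach.head (s11 a (b + 2)) ?_
  refine Reach.head (s41 a (b + 1)) ?_
  refine Reach.head (s73 (a + 1) b) ?_
  refine Reach.head (s43 (a + 2) b) ?_
  refine Reach.head (s17 (a + 2) (b + 1)) ?_
  refine Reach.head (s31 (a + 3) b) ?_
  refine Reach.head (s37 (a + 3) b) ?_
  exact Reach.refl _

theorem turns (m : ℕ) : ∀ a b : ℕ,
    Reach (2 ^ (a + 1) * 3 ^ (b + 1 + 2 * m) * 11) (2 ^ (a + 1 + 5 * m) * 3 ^ (b + 1) * 11) := by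
  induction m with
  | zero => intro a b; exact Reach.refl _
  | succ m ih =>
    intro a b
    have h1 := turn a (b + 2 * m)
    have h2 := ih (a + 5) b
    have e1 : b + 1 + 2 * (m + 1) = b + 2 * m + 3 := by ring
    have e2 : a + 1 + 5 * (m + 1) = a + 5 + 1 + 5 * m := by ring
    have e3 : b + 2 * m + 1 = b + 1 + 2 * m := by ring
    rw [e1, e2]
    rw [e3] at h1
    exact h1.trans h2

/-- From `2 ^ (k+5) * 41` to `2 ^ k * 1488`. -/
theorem from41 (k : ℕ) : Reach (2 ^ (k + 5) * 41) (2 ^ k * 1488) := by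
  refine Reach.head (f2w (k + 4) 41 (by norm_num) (by norm_num)) ?_
  refine Reach.head (f2w (k + 3) 83 (by norm_num) (by norm_num)) ?_
  refine Reach.head (f2w (k + 2) 167 (by norm_num) (by norm_num)) ?_
  have h := f2pq (k + 1) 5 67 (by norm_num) (by norm_num) (by norm_num) (by norm_num)
    (by norm_num)
  refine Reach.head h ?_
  have e : 2 ^ (k + 1) * (2 * 5 * 67 + 5 + 67 + 2) = 2 ^ k * 1488 := by ring
  rw [e]
  exact Reach.refl _

theorem double (k : ℕ) : Reach (2 ^ k * 1488) (2 ^ (k + 1) * 1488) := by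
  have e : 2 ^ k * 1488 = 2 ^ (k + 3 + 1) * 3 ^ (0 + 1) * 31 := by ring
  rw [e]
  refine Reach.head (s31 (k + 3) 0) ?_
  refine Reach.head (s37 (k + 3) 0) ?_
  refine Reach.head (s11 (k + 5) 0) ?_
  have e2 : 2 ^ (k + 5 + 1) * 3 ^ 0 * 41 = 2 ^ (k + 1 + 5) * 41 := by ring
  rw [e2]
  exact from41 (k + 1)

theorem double_add (k m : ℕ) : Reach (2 ^ k * 1488) (2 ^ (k + m) * 1488) := by
  induction m with
  | zero => exact Reach.refl _
  | succ m ih => exact ih.trans (double (k + m))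

theorem reach_1488 (k : ℕ) : Reach 1488 (2 ^ k * 1488) := by
  have := double_add 0 k
  simpa using this

/-- The regime `w = 1, 7`: it trades factors `2` for factors `3`. -/
theorem drop (a : ℕ) : ∀ b : ℕ, Reach (2 ^ (a + 1) * 3 ^ (b + 2)) (7 * 3 ^ (a + b + 1)) := by
  induction a with
  | zero =>
    intro b
    refine Reach.head (f23 0 (b + 1)) ?_
    have e : 2 ^ 0 * 3 ^ (b + 1) * 7 = 7 * 3 ^ (0 + b + 1) := by ring
    rw [e]
    exact Reach.refl _
  | succ a ih =>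
    intro b
    refine Reach.head (f23 (a + 1) (b + 1)) ?_
    refine Reach.head (s7 a b) ?_
    have h := ih (b + 1)
    have e : a + (b + 1) + 1 = a + 1 + b + 1 := by ring
    rw [e] at h
    exact h

/-- Even exponent: `7 * 3 ^ (2 * m + 4)` reaches a term `2 ^ k * 1488`. -/
theorem even_case (m : ℕ) : Reach (7 * 3 ^ (2 * m + 4)) (2 ^ (5 * m + 1) * 1488) := by
  refine Reach.head (f37 (2 * m + 3)) ?_
  have h1 := turns (m + 1) 0 0
  have e1 : 0 + 1 + 2 * (m + 1) = 2 * m + 3 := by ring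
  have e2 : 0 + 1 + 5 * (m + 1) = 5 * m + 5 + 1 := by ring
  rw [e1, e2] at h1
  refine h1.trans ?_
  refine Reach.head (s11 (5 * m + 5) 0) ?_
  have e3 : 2 ^ (5 * m + 5 + 1) * 3 ^ 0 * 41 = 2 ^ (5 * m + 1 + 5) * 41 := by ring
  rw [e3]
  exact from41 (5 * m + 1)

/-- Odd exponent: `7 * 3 ^ (2 * m + 3)` reaches `7 * 3 ^ (5 * m + 4)`. -/
theorem odd_case (m : ℕ) : Reach (7 * 3 ^ (2 * m + 3)) (7 * 3 ^ (5 * m + 4)) := by
  refine Reach.head (f37 (2 * m + 2)) ?_
  have h1 := turns m 0 1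
  have e1 : 1 + 1 + 2 * m = 2 * m + 2 := by ring
  have e2 : 0 + 1 + 5 * m = 5 * m + 1 := by ring
  rw [e1, e2] at h1
  refine h1.trans ?_
  refine Reach.head (s11 (5 * m) 1) ?_
  refine Reach.head (s41 (5 * m) 0) ?_
  have e3 : 2 ^ (5 * m + 2) * 3 ^ 0 * 73 = 2 ^ (5 * m + 1 + 1) * 73 := by ring
  rw [e3]
  refine Reach.head (f2w (5 * m + 1) 73 (by norm_num) (by norm_num)) ?_
  refine Reach.head (f2_147 (5 * m)) ?_
  refine Reach.head (s7 (5 * m) 2) ?_
  have h := drop (5 * m) 3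
  exact h

/-- Every `7 * 3 ^ c` with `c ≥ 3` reaches some `2 ^ k * 1488`. -/
theorem key (t : ℕ) : ∀ c q : ℕ, Odd q → 3 ≤ c → 3 * c = 2 ^ t * q + 7 →
    ∃ k, Reach (7 * 3 ^ c) (2 ^ k * 1488) := by
  induction t with
  | zero =>
    intro c q hq hc h
    obtain ⟨r, rfl⟩ := hq
    obtain ⟨m, rfl⟩ : ∃ m, c = 2 * m + 4 := ⟨(c - 4) / 2, by omega⟩
    exact ⟨_, even_case m⟩
  | succ t ih =>
    intro c q hq hc h
    have h' : 3 * c = 2 * (2 ^ t * q) + 7 := by rw [h]; ring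
    obtain ⟨m, rfl⟩ : ∃ m, c = 2 * m + 3 := ⟨(c - 3) / 2, by omega⟩
    have h5 : Odd (5 * q) := Odd.mul (by decide) hq
    obtain ⟨k, hk⟩ := ih (5 * m + 4) (5 * q) h5 (by omega) (by
      have : 2 ^ t * (5 * q) = 5 * (2 ^ t * q) := by ring
      rw [this]; omega)
    exact ⟨k, (odd_case m).trans hk⟩

theorem key' (c : ℕ) (hc : 3 ≤ c) : ∃ k, Reach (7 * 3 ^ c) (2 ^ k * 1488) := by
  have h0 : 3 * c - 7 ≠ 0 := by omega
  obtain ⟨t, q, hq, h⟩ := Nat.exists_eq_two_pow_mul_odd h0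
  exact key t c q hq hc (by omega)

theorem g235 (a b c : ℕ) :
    f (2 ^ (a + 1) * 3 ^ (b + 1) * 5 ^ (c + 1)) = 2 ^ (a + 2 + 1) * 3 ^ b * 5 ^ (c + 1) := by
  have h5 : Nat.Prime 5 := by norm_num
  have c23 : Nat.Coprime (2 ^ (a + 1)) (3 ^ (b + 1)) := Nat.Coprime.pow _ _ (by norm_num)
  have c' : Nat.Coprime (2 ^ (a + 1) * 3 ^ (b + 1)) (5 ^ (c + 1)) :=
    Nat.Coprime.mul_left (Nat.Coprime.pow _ _ (by norm_num)) (Nat.Coprime.pow _ _ (by norm_num))
  refine f_eq (A := 2 ^ a * (2 - 1) * (3 ^ b * (3 - 1)) * (5 ^ c * (5 - 1)))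
    (B := 2 ^ a * (2 + 1) * (3 ^ b * (3 + 1)) * (5 ^ c * (5 + 1))) ?_ ?_ ?_
  · rw [Nat.totient_mul c', Nat.totient_mul c23, Nat.totient_prime_pow_succ Nat.prime_two,
      Nat.totient_prime_pow_succ Nat.prime_three, Nat.totient_prime_pow_succ h5]
  · rw [psi_mul c', psi_mul c23, psi_prime_pow Nat.prime_two, psi_prime_pow Nat.prime_three,
      psi_prime_pow h5]
  · simp only [Nat.reduceSub, Nat.reduceAdd]
    ring

theorem g25 (a c : ℕ) : f (2 ^ (a + 1) * 5 ^ (c + 1)) = 2 ^ a * 5 ^ c * 11 := by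
  have h5 : Nat.Prime 5 := by norm_num
  have c' : Nat.Coprime (2 ^ (a + 1)) (5 ^ (c + 1)) := Nat.Coprime.pow _ _ (by norm_num)
  refine f_eq (A := 2 ^ a * (2 - 1) * (5 ^ c * (5 - 1)))
    (B := 2 ^ a * (2 + 1) * (5 ^ c * (5 + 1))) ?_ ?_ ?_
  · rw [Nat.totient_mul c', Nat.totient_prime_pow_succ Nat.prime_two,
      Nat.totient_prime_pow_succ h5]
  · rw [psi_mul c', psi_prime_pow Nat.prime_two, psi_prime_pow h5]
  · simp only [Nat.reduceSub, Nat.reduceAdd]
    ring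

theorem g25_11 (a c : ℕ) : f (2 ^ (a + 1) * 5 ^ (c + 1) * 11) = 2 ^ (a + 5 + 2) * 5 ^ c := by
  have h5 : Nat.Prime 5 := by norm_num
  have h11 : Nat.Prime 11 := by norm_num
  have c' : Nat.Coprime (2 ^ (a + 1)) (5 ^ (c + 1)) := Nat.Coprime.pow _ _ (by norm_num)
  have c'' : Nat.Coprime (2 ^ (a + 1) * 5 ^ (c + 1)) 11 :=
    Nat.Coprime.mul_left (Nat.Coprime.pow_left _ (by norm_num))
      (Nat.Coprime.pow_left _ (by norm_num))
  refine f_eq (A := 2 ^ a * (2 - 1) * (5 ^ c * (5 - 1)) * (11 - 1))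
    (B := 2 ^ a * (2 + 1) * (5 ^ c * (5 + 1)) * (11 + 1)) ?_ ?_ ?_
  · rw [Nat.totient_mul c'', Nat.totient_mul c', Nat.totient_prime_pow_succ Nat.prime_two,
      Nat.totient_prime_pow_succ h5, Nat.totient_prime h11]
  · rw [psi_mul c'', psi_mul c', psi_prime_pow Nat.prime_two, psi_prime_pow h5, psi_prime h11]
  · simp only [Nat.reduceSub, Nat.reduceAdd]
    ring

theorem g35 (b c : ℕ) : f (3 ^ (b + 1) * 5 ^ (c + 1)) = 2 ^ (3 + 1) * 3 ^ b * 5 ^ c := by
  have h5 : Nat.Prime 5 := by norm_num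
  have c' : Nat.Coprime (3 ^ (b + 1)) (5 ^ (c + 1)) := Nat.Coprime.pow _ _ (by norm_num)
  refine f_eq (A := 3 ^ b * (3 - 1) * (5 ^ c * (5 - 1)))
    (B := 3 ^ b * (3 + 1) * (5 ^ c * (5 + 1))) ?_ ?_ ?_
  · rw [Nat.totient_mul c', Nat.totient_prime_pow_succ Nat.prime_three,
      Nat.totient_prime_pow_succ h5]
  · rw [psi_mul c', psi_prime_pow Nat.prime_three, psi_prime_pow h5]
  · simp only [Nat.reduceSub, Nat.reduceAdd]
    ring

theorem g5_11 (c : ℕ) : f (5 ^ (c + 1) * 11) = 2 ^ 3 * 7 * 5 ^ c := by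
  have h5 : Nat.Prime 5 := by norm_num
  have h11 : Nat.Prime 11 := by norm_num
  have c' : Nat.Coprime (5 ^ (c + 1)) 11 := Nat.Coprime.pow_left _ (by norm_num)
  refine f_eq (A := 5 ^ c * (5 - 1) * (11 - 1)) (B := 5 ^ c * (5 + 1) * (11 + 1)) ?_ ?_ ?_
  · rw [Nat.totient_mul c', Nat.totient_prime_pow_succ h5, Nat.totient_prime h11]
  · rw [psi_mul c', psi_prime_pow h5, psi_prime h11]
  · simp only [Nat.reduceSub, Nat.reduceAdd]
    ring

/-- From `2 ^ (n+5) * 5` to `2 ^ (n+3) * 3 ^ 3`. -/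
theorem from5 (n : ℕ) : Reach (2 ^ (n + 5) * 5) (2 ^ (n + 2 + 1) * 3 ^ (1 + 2)) := by
  refine Reach.head (f2w (n + 4) 5 (by norm_num) (by norm_num)) ?_
  refine Reach.head (f2w (n + 3) 11 (by norm_num) (by norm_num)) ?_
  refine Reach.head (f2w (n + 2) 23 (by norm_num) (by norm_num)) ?_
  refine Reach.head (f2w (n + 1) 47 (by norm_num) (by norm_num)) ?_
  have e4 : 2 ^ (n + 1) * (2 * 47 + 1) = 2 ^ (n + 1) * (5 * 19) := by ring
  rw [e4]
  refine Reach.head (f2pq n 5 19 (by norm_num) (by norm_num) (by norm_num) (by norm_num)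
    (by norm_num)) ?_
  have e5 : 2 ^ n * (2 * 5 * 19 + 5 + 19 + 2) = 2 ^ (n + 2 + 1) * 3 ^ (1 + 2) := by ring
  rw [e5]
  exact Reach.refl _

/-- `80` reaches `96`. -/
theorem from80 : Reach (2 ^ 4 * 5) (2 ^ (4 + 1) * 3 ^ (0 + 1)) := by
  refine Reach.head (f2w 3 5 (by norm_num) (by norm_num)) ?_
  refine Reach.head (f2w 2 11 (by norm_num) (by norm_num)) ?_
  refine Reach.head (f2w 1 23 (by norm_num) (by norm_num)) ?_
  refine Reach.head (f2w 0 47 (by norm_num) (by norm_num)) ?_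
  have e4 : 2 ^ 0 * (2 * 47 + 1) = 5 * 19 := by norm_num
  rw [e4]
  refine Reach.head (fpq 5 19 (by norm_num) (by norm_num) (by norm_num)) ?_
  have e5 : 5 * 19 + 1 = 2 ^ (4 + 1) * 3 ^ (0 + 1) := by norm_num
  rw [e5]
  exact Reach.refl _

/-- From `2 ^ (n+4) * 3` to `2 ^ (n+4) * 5`. -/
theorem from3 (n : ℕ) : Reach (2 ^ (n + 3 + 1) * 3 ^ (0 + 1)) (2 ^ (n + 4) * 5) := by
  refine Reach.head (f23 (n + 3) 0) ?_
  have e1 : 2 ^ (n + 3) * 3 ^ 0 * 7 = 2 ^ (n + 2 + 1) * 7 := by ring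
  rw [e1]
  refine Reach.head (f2w (n + 2) 7 (by norm_num) (by norm_num)) ?_
  have e2 : 2 ^ (n + 2) * (2 * 7 + 1) = 2 ^ (n + 1 + 1) * (3 * 5) := by ring
  rw [e2]
  refine Reach.head (f2pq (n + 1) 3 5 (by norm_num) (by norm_num) (by norm_num)
    (by norm_num) (by norm_num)) ?_
  have e3 : 2 ^ (n + 1) * (2 * 3 * 5 + 3 + 5 + 2) = 2 ^ (n + 4) * 5 := by ring
  rw [e3]
  exact Reach.refl _

theorem main5 (n : ℕ) : ∃ k, Reach (2 ^ (n + 4) * 5) (2 ^ k * 1488) := by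
  rcases n with _ | n
  · obtain ⟨k, hk⟩ := key' 4 (by norm_num)
    exact ⟨k, from80.trans ((from3 1).trans ((from5 0).trans ((drop 2 1).trans hk)))⟩
  · obtain ⟨k, hk⟩ := key' (n + 4) (by omega)
    refine ⟨k, (from5 n).trans ?_⟩
    have h := drop (n + 2) 1
    have e6 : n + 2 + 1 + 1 = n + 4 := by ring
    rw [e6] at h
    exact h.trans hk

theorem main (a b : ℕ) (ha : 1 ≤ a) (hb : 1 ≤ b) (hab : 5 ≤ a + b) :
    ∃ k, Reach (2 ^ a * 3 ^ b) (2 ^ k * 1488) := by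
  obtain ⟨b, rfl⟩ : ∃ b', b = b' + 1 := ⟨b - 1, by omega⟩
  rcases b with _ | b
  · obtain ⟨n, rfl⟩ : ∃ n, a = n + 3 + 1 := ⟨a - 4, by omega⟩
    obtain ⟨k, hk⟩ := main5 n
    exact ⟨k, (from3 n).trans hk⟩
  · obtain ⟨a, rfl⟩ : ∃ a', a = a' + 1 := ⟨a - 1, by omega⟩
    obtain ⟨k, hk⟩ := key' (a + b + 1) (by omega)
    exact ⟨k, (drop a b).trans hk⟩

theorem clear3 (b : ℕ) : ∀ a c : ℕ,
    Reach (2 ^ (a + 1) * 3 ^ b * 5 ^ (c + 1)) (2 ^ (a + 1 + 2 * b) * 5 ^ (c + 1)) := by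
  induction b with
  | zero => intro a c; simpa using Reach.refl (2 ^ (a + 1) * 5 ^ (c + 1))
  | succ b ih =>
    intro a c
    refine Reach.head (g235 a b c) ?_
    have h := ih (a + 2) c
    have e : a + 2 + 1 + 2 * b = a + 1 + 2 * (b + 1) := by ring
    rw [e] at h
    exact h

theorem clear5 (m : ℕ) : ∀ a r : ℕ,
    Reach (2 ^ (a + 2) * 5 ^ (2 * m + r)) (2 ^ (a + 2 + 5 * m) * 5 ^ r) := by
  induction m with
  | zero => intro a r; simpa using Reach.refl (2 ^ (a + 2) * 5 ^ r)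
  | succ m ih =>
    intro a r
    have e1 : 2 * (m + 1) + r = 2 * m + r + 1 + 1 := by ring
    rw [e1]
    refine Reach.head (g25 (a + 1) (2 * m + r + 1)) ?_
    refine Reach.head (g25_11 a (2 * m + r)) ?_
    have h := ih (a + 5) r
    have e : a + 5 + 2 + 5 * m = a + 2 + 5 * (m + 1) := by ring
    rw [e] at h
    exact h

/-- The orbit of `n` reaches `1` or a prime power. -/
def Stops (n : ℕ) : Prop := ∃ j, f^[j] n = 1 ∨ IsPrimePow (f^[j] n)

/-- The orbit of `n` is unbounded and has a term in common with the orbit of `1488`. -/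
def Meets (n : ℕ) : Prop := (∀ M, ∃ j, M < f^[j] n) ∧ ∃ j k, f^[j] n = f^[k] 1488

theorem Stops.of_reach {n y : ℕ} (h : Reach n y) (hy : IsPrimePow y) : Stops n := by
  obtain ⟨j, hj⟩ := h
  exact ⟨j, Or.inr (by rw [hj]; exact hy)⟩

theorem Meets.of_reach {n k : ℕ} (hk : Reach n (2 ^ k * 1488)) : Meets n := by
  refine ⟨?_, ?_⟩
  · intro M
    obtain ⟨j, hj⟩ := hk.trans (double_add k M)
    refine ⟨j, ?_⟩
    rw [hj]
    have h1 : M < 2 ^ M := Nat.lt_two_pow_self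
    have h2 : 2 ^ M ≤ 2 ^ (k + M) := Nat.pow_le_pow_right (by norm_num) (by omega)
    nlinarith
  · obtain ⟨j, hj⟩ := hk
    obtain ⟨i, hi⟩ := reach_1488 k
    exact ⟨j, i, by rw [hj, hi]⟩

theorem not_meets {n : ℕ} (hs : Stops n) : ¬ Meets n := by
  rintro ⟨hunb, -⟩
  obtain ⟨j, hj⟩ := hs
  have hfix : ∀ x, f x = x → f^[j] n = x → False := by
    intro x hx hj
    have hc : ∀ i, f^[i + j] n = x := by
      intro i
      rw [Function.iterate_add_apply, hj]
      exact Function.iterate_fixed hx i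
    obtain ⟨j', hj'⟩ := hunb (x + ∑ i ∈ Finset.range j, f^[i] n)
    rcases Nat.lt_or_ge j' j with h | h
    · have h9 : f^[j'] n ≤ ∑ i ∈ Finset.range j, f^[i] n :=
        Finset.single_le_sum (f := fun i => f^[i] n)
          (fun i _ => Nat.zero_le _) (Finset.mem_range.2 h)
      omega
    · obtain ⟨i, rfl⟩ := Nat.exists_eq_add_of_le h
      have := hc i
      rw [add_comm] at this
      rw [this] at hj'
      omega
  rcases hj with h | h
  · exact hfix 1 (by unfold f psi; simp) h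
  · obtain ⟨p, m, hp, hm, hpm⟩ := h
    obtain ⟨m, rfl⟩ : ∃ m', m = m' + 1 := ⟨m - 1, by omega⟩
    exact hfix (p ^ (m + 1)) (f_prime_pow (Nat.prime_iff.2 hp) m) hpm.symm

theorem small (a b : ℕ) (ha : 1 ≤ a) (hb : 1 ≤ b) (hab : a + b ≤ 4) :
    Stops (2 ^ a * 3 ^ b) := by
  have g1 : Reach (2 ^ (0 + 1) * 3 ^ (0 + 1)) 7 := Reach.head (f23 0 0) (by
    simpa using Reach.refl 7)
  have g21 : Reach 21 23 := by
    have h := f37 0
    norm_num at h
    refine Reach.head h ?_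
    have h2 := f2w 0 11 (by norm_num) (by norm_num)
    norm_num at h2
    exact Reach.head h2 (Reach.refl _)
  have g63 : Reach 63 83 := by
    have h := f37 1
    norm_num at h
    refine Reach.head h ?_
    have h1 := s11 0 0
    norm_num at h1
    refine Reach.head h1 ?_
    have h2 := f2w 0 41 (by norm_num) (by norm_num)
    norm_num at h2
    exact Reach.head h2 (Reach.refl _)
  have c : (a = 1 ∧ b = 1) ∨ (a = 1 ∧ b = 2) ∨ (a = 2 ∧ b = 1) ∨ (a = 1 ∧ b = 3) ∨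
      (a = 2 ∧ b = 2) ∨ (a = 3 ∧ b = 1) := by omega
  rcases c with ⟨rfl, rfl⟩ | ⟨rfl, rfl⟩ | ⟨rfl, rfl⟩ | ⟨rfl, rfl⟩ | ⟨rfl, rfl⟩ | ⟨rfl, rfl⟩
  · exact Stops.of_reach g1 (by norm_num : Nat.Prime 7).isPrimePow
  · refine Stops.of_reach (y := 23) ?_ (by norm_num : Nat.Prime 23).isPrimePow
    have h := drop 0 0
    norm_num at h ⊢
    exact h.trans g21
  · refine Stops.of_reach (y := 2 ^ 4) ?_ ((Nat.prime_two).isPrimePow.pow (by norm_num))
    have h := f23 1 0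
    norm_num at h
    have h1 := f2w 0 7 (by norm_num) (by norm_num)
    norm_num at h1
    have h2 := fpq 3 5 (by norm_num) (by norm_num) (by norm_num)
    norm_num at h2
    norm_num
    exact Reach.head h (Reach.head h1 (Reach.head h2 (Reach.refl _)))
  · refine Stops.of_reach (y := 83) ?_ (by norm_num : Nat.Prime 83).isPrimePow
    have h := drop 0 1
    norm_num at h ⊢
    exact h.trans g63
  · refine Stops.of_reach (y := 83) ?_ (by norm_num : Nat.Prime 83).isPrimePow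
    have h := drop 1 0
    norm_num at h ⊢
    exact h.trans g63
  · refine Stops.of_reach (y := 47) ?_ (by norm_num : Nat.Prime 47).isPrimePow
    have h := f23 2 0
    norm_num at h
    have h1 := f2w 1 7 (by norm_num) (by norm_num)
    norm_num at h1
    have h2 := f2pq 0 3 5 (by norm_num) (by norm_num) (by norm_num) (by norm_num) (by norm_num)
    norm_num at h2
    have h3 := f2w 2 5 (by norm_num) (by norm_num)
    norm_num at h3
    have h4 := f2w 1 11 (by norm_num) (by norm_num)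
    norm_num at h4
    have h5 := f2w 0 23 (by norm_num) (by norm_num)
    norm_num at h5
    norm_num
    exact Reach.head h (Reach.head h1 (Reach.head h2 (Reach.head h3 (Reach.head h4
      (Reach.head h5 (Reach.refl _))))))

theorem stops20 : Stops 20 := by
  refine Stops.of_reach (y := 23) ?_ (by norm_num : Nat.Prime 23).isPrimePow
  have h3 := f2w 1 5 (by norm_num) (by norm_num)
  norm_num at h3
  have h4 := f2w 0 11 (by norm_num) (by norm_num)
  norm_num at h4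
  exact Reach.head h3 (Reach.head h4 (Reach.refl _))

theorem reach40 : Reach 40 47 := by
  have h3 := f2w 2 5 (by norm_num) (by norm_num)
  norm_num at h3
  have h4 := f2w 1 11 (by norm_num) (by norm_num)
  norm_num at h4
  have h5 := f2w 0 23 (by norm_num) (by norm_num)
  norm_num at h5
  exact Reach.head h3 (Reach.head h4 (Reach.head h5 (Reach.refl _)))

theorem stops40 : Stops 40 :=
  Stops.of_reach reach40 (by norm_num : Nat.Prime 47).isPrimePow

theorem stops30 : Stops 30 := by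
  have h := g235 0 0 0
  norm_num at h
  exact Stops.of_reach (Reach.head h reach40) (by norm_num : Nat.Prime 47).isPrimePow

/-- Even exponent of `5`. -/
theorem even5 (a b c : ℕ) (ha : 1 ≤ a) (hab : 1 ≤ b ∨ 2 ≤ a) (hc : 1 ≤ c) (he : Even c) :
    Stops (2 ^ a * 3 ^ b * 5 ^ c) := by
  obtain ⟨m, rfl⟩ := he
  obtain ⟨a, rfl⟩ : ∃ a', a = a' + 1 := ⟨a - 1, by omega⟩
  obtain ⟨m, rfl⟩ : ∃ m', m = m' + 1 := ⟨m - 1, by omega⟩
  have h1 := clear3 b a (2 * m + 1)
  obtain ⟨n, hn⟩ : ∃ n, a + 1 + 2 * b = n + 2 := ⟨a + 2 * b - 1, by omega⟩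
  have h2 := clear5 (m + 1) n 0
  have e1 : m + 1 + (m + 1) = 2 * m + 1 + 1 := by ring
  have e2 : 2 * (m + 1) + 0 = 2 * m + 1 + 1 := by ring
  rw [e1]
  rw [hn] at h1
  rw [e2] at h2
  refine Stops.of_reach (h1.trans h2) ?_
  rw [pow_zero, mul_one]
  exact (Nat.prime_two).isPrimePow.pow (by omega)

/-- Odd exponent of `5`. -/
theorem odd5 (a b c : ℕ) (ha : 1 ≤ a) (hab : 1 ≤ b ∨ 2 ≤ a) (ho : Odd c)
    (h20 : 2 ^ a * 3 ^ b * 5 ^ c ≠ 20) (h30 : 2 ^ a * 3 ^ b * 5 ^ c ≠ 30)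
    (h40 : 2 ^ a * 3 ^ b * 5 ^ c ≠ 40) : Meets (2 ^ a * 3 ^ b * 5 ^ c) := by
  obtain ⟨m, rfl⟩ := ho
  have key3 : 4 ≤ a + 2 * b + 5 * m := by
    by_contra hcon
    have hm : m = 0 := by omega
    subst hm
    have c : (a = 2 ∧ b = 0) ∨ (a = 3 ∧ b = 0) ∨ (a = 1 ∧ b = 1) := by omega
    rcases c with ⟨rfl, rfl⟩ | ⟨rfl, rfl⟩ | ⟨rfl, rfl⟩
    · exact h20 (by norm_num)
    · exact h40 (by norm_num)
    · exact h30 (by norm_num)
  obtain ⟨a, rfl⟩ : ∃ a', a = a' + 1 := ⟨a - 1, by omega⟩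
  have h1 := clear3 b a (2 * m)
  obtain ⟨n, hn⟩ : ∃ n, a + 1 + 2 * b = n + 2 := ⟨a + 2 * b - 1, by omega⟩
  have h2 := clear5 m n 1
  rw [hn] at h1
  obtain ⟨n', hn'⟩ : ∃ n', n + 2 + 5 * m = n' + 4 := ⟨n + 5 * m - 2, by omega⟩
  rw [hn', pow_one] at h2
  obtain ⟨k, hk⟩ := main5 n'
  exact Meets.of_reach ((h1.trans h2).trans hk)

/-- The odd starting values `3 ^ b * 5 ^ c`. -/
theorem odd35 (b c : ℕ) (hb : 1 ≤ b) (hc : 1 ≤ c) :
    if Even c ∨ (c = 1 ∧ 2 ≤ b) then Meets (3 ^ b * 5 ^ c) else Stops (3 ^ b * 5 ^ c) := by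
  obtain ⟨b, rfl⟩ : ∃ b', b = b' + 1 := ⟨b - 1, by omega⟩
  obtain ⟨c, rfl⟩ : ∃ c', c = c' + 1 := ⟨c - 1, by omega⟩
  have hM : ∀ {n}, (∃ k, Reach n (2 ^ k * 1488)) → Meets n := fun ⟨_, hk⟩ => Meets.of_reach hk
  have h0 := g35 b c
  have lift : Reach (3 ^ (b + 1) * 5 ^ (c + 1)) (2 ^ (3 + 1) * 3 ^ b * 5 ^ c) :=
    Reach.head h0 (Reach.refl _)
  split_ifs with h
  · rcases Nat.eq_zero_or_pos c with rfl | hcpos
    · have hb2 : 1 ≤ b := by
        rcases h with h | h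
        · exact absurd h (by decide)
        · omega
      rw [pow_zero, mul_one] at lift
      obtain ⟨k, hk⟩ := main 4 b (by norm_num) hb2 (by omega)
      exact Meets.of_reach (lift.trans hk)
    · have ho : Odd c := by
        rcases h with h | h
        · exact Nat.not_even_iff_odd.1 (fun h' => (Nat.even_add_one.1 h) h')
        · omega
      have hbig : ∀ v, v ≤ 40 → 2 ^ 4 * 3 ^ b * 5 ^ c ≠ v := by
        intro v hv hv'
        have h3 : 1 ≤ 3 ^ b := Nat.one_le_pow _ _ (by norm_num)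
        have h5 : 5 ^ 1 ≤ 5 ^ c := Nat.pow_le_pow_right (by norm_num) hcpos
        nlinarith [Nat.mul_le_mul h3 h5]
      have hm := odd5 4 b c (by norm_num) (Or.inr (by norm_num)) ho (hbig 20 (by norm_num))
        (hbig 30 (by norm_num)) (hbig 40 (by norm_num))
      -- transport `Meets` back along one step
      obtain ⟨h1, j, k, hjk⟩ := hm
      obtain ⟨i, hi⟩ := lift
      refine ⟨fun M => ?_, j + i, k, ?_⟩
      · obtain ⟨j', hj'⟩ := h1 M
        exact ⟨j' + i, by rw [Function.iterate_add_apply, hi]; exact hj'⟩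
      · rw [Function.iterate_add_apply, hi]; exact hjk
  · rcases Nat.eq_zero_or_pos c with rfl | hcpos
    · have hb0 : b = 0 := by
        by_contra hb0
        exact h (Or.inr ⟨rfl, by omega⟩)
      subst hb0
      refine Stops.of_reach lift ?_
      have e16 : 2 ^ (3 + 1) * 3 ^ 0 * 5 ^ 0 = 2 ^ 4 := by norm_num
      rw [e16]
      exact (Nat.prime_two).isPrimePow.pow (by omega)
    · have he : Even c := by
        by_contra hne
        exact h (Or.inl (Nat.even_add_one.2 hne))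
      obtain ⟨j, hj⟩ := even5 4 b c (by norm_num) (Or.inr (by norm_num)) hcpos he
      obtain ⟨i, hi⟩ := lift
      exact ⟨j + i, by rw [Function.iterate_add_apply, hi]; exact hj⟩

theorem meets50 : Meets (2 * 5 ^ 2) := by
  have h0 := g25 0 1
  have h1 := g5_11 0
  have h2 := f2w 2 7 (by norm_num) (by norm_num)
  have h3 := f2pq 1 3 5 (by norm_num) (by norm_num) (by norm_num) (by norm_num) (by norm_num)
  obtain ⟨k, hk⟩ := main5 0
  norm_num at h0 h1 h2 h3 hk ⊢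
  exact Meets.of_reach (Reach.head h0 (Reach.head h1 (Reach.head h2 (Reach.head h3 hk))))

theorem meets250 : Meets (2 * 5 ^ 3) := by
  have h0 := g25 0 2
  have h1 := g5_11 1
  have h2 := f2pq 2 5 7 (by norm_num) (by norm_num) (by norm_num) (by norm_num) (by norm_num)
  have h3 := s7 3 0
  obtain ⟨k, hk⟩ := main 4 3 (by norm_num) (by norm_num) (by norm_num)
  norm_num at h0 h1 h2 h3 hk ⊢
  exact Meets.of_reach (Reach.head h0 (Reach.head h1 (Reach.head h2 (Reach.head h3 hk))))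

theorem stops10 : Stops (2 * 5 ^ 1) := by
  have h0 := g25 0 0
  norm_num at h0 ⊢
  exact Stops.of_reach (Reach.head h0 (Reach.refl _)) (by norm_num : Nat.Prime 11).isPrimePow

theorem stops_self {n : ℕ} (h : n = 1 ∨ IsPrimePow n) : Stops n := ⟨0, h⟩

theorem parts :
    (∀ a b c : ℕ, (a = 1 → b = 0 → c ≤ 3) →
      Stops (2 ^ a * 3 ^ b * 5 ^ c) ∨ Meets (2 ^ a * 3 ^ b * 5 ^ c)) ∧
    (∀ n, ¬ (Stops n ∧ Meets n)) ∧
    (∀ a b : ℕ, 1 ≤ a → 1 ≤ b → (Meets (2 ^ a * 3 ^ b) ↔ 5 ≤ a + b)) ∧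
    (∀ a b c : ℕ, 1 ≤ a → (1 ≤ b ∨ 2 ≤ a) → 1 ≤ c →
      (Meets (2 ^ a * 3 ^ b * 5 ^ c) ↔ Odd c ∧ 2 ^ a * 3 ^ b * 5 ^ c ≠ 20 ∧
        2 ^ a * 3 ^ b * 5 ^ c ≠ 30 ∧ 2 ^ a * 3 ^ b * 5 ^ c ≠ 40)) ∧
    (∀ b c : ℕ, 1 ≤ b → 1 ≤ c →
      (Meets (3 ^ b * 5 ^ c) ↔ Even c ∨ (c = 1 ∧ 2 ≤ b))) := by
  have hM : ∀ {n}, (∃ k, Reach n (2 ^ k * 1488)) → Meets n := fun ⟨_, hk⟩ => Meets.of_reach hk
  have r3 : ∀ a b : ℕ, 1 ≤ a → 1 ≤ b → (Meets (2 ^ a * 3 ^ b) ↔ 5 ≤ a + b) := by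
    intro a b ha hb
    refine ⟨fun h => ?_, fun h => hM (main a b ha hb h)⟩
    by_contra hcon
    exact not_meets (small a b ha hb (by omega)) h
  have r4 : ∀ a b c : ℕ, 1 ≤ a → (1 ≤ b ∨ 2 ≤ a) → 1 ≤ c →
      (Meets (2 ^ a * 3 ^ b * 5 ^ c) ↔ Odd c ∧ 2 ^ a * 3 ^ b * 5 ^ c ≠ 20 ∧
        2 ^ a * 3 ^ b * 5 ^ c ≠ 30 ∧ 2 ^ a * 3 ^ b * 5 ^ c ≠ 40) := by
    intro a b c ha hab hc
    refine ⟨fun h => ⟨?_, ?_, ?_, ?_⟩, fun h => odd5 a b c ha hab h.1 h.2.1 h.2.2.1 h.2.2.2⟩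
    · by_contra hne
      exact not_meets (even5 a b c ha hab hc (Nat.not_odd_iff_even.1 hne)) h
    · intro e; rw [e] at h; exact not_meets stops20 h
    · intro e; rw [e] at h; exact not_meets stops30 h
    · intro e; rw [e] at h; exact not_meets stops40 h
  refine ⟨?_, fun n h => not_meets h.1 h.2, r3, r4, ?_⟩
  · intro a b c h
    rcases Nat.eq_zero_or_pos c with rfl | hc
    · rw [pow_zero, mul_one]
      rcases Nat.eq_zero_or_pos a with rfl | ha
      · rcases Nat.eq_zero_or_pos b with rfl | hb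
        · exact Or.inl (stops_self (Or.inl rfl))
        · refine Or.inl (stops_self (Or.inr ?_))
          rw [pow_zero, one_mul]
          exact (Nat.prime_three).isPrimePow.pow (by omega)
      · rcases Nat.eq_zero_or_pos b with rfl | hb
        · refine Or.inl (stops_self (Or.inr ?_))
          rw [pow_zero, mul_one]
          exact (Nat.prime_two).isPrimePow.pow (by omega)
        · rcases Nat.lt_or_ge (a + b) 5 with h5 | h5
          · exact Or.inl (small a b ha hb (by omega))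
          · exact Or.inr (hM (main a b ha hb h5))
    · rcases Nat.eq_zero_or_pos a with rfl | ha
      · rw [pow_zero, one_mul]
        rcases Nat.eq_zero_or_pos b with rfl | hb
        · refine Or.inl (stops_self (Or.inr ?_))
          rw [pow_zero, one_mul]
          exact (by norm_num : Nat.Prime 5).isPrimePow.pow (by omega)
        · have h35 := odd35 b c hb hc
          split_ifs at h35 with h'
          · exact Or.inr h35
          · exact Or.inl h35
      · by_cases hab : 1 ≤ b ∨ 2 ≤ a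
        · by_cases hm : Meets (2 ^ a * 3 ^ b * 5 ^ c)
          · exact Or.inr hm
          · left
            rcases Nat.even_or_odd c with he | ho
            · exact even5 a b c ha hab hc he
            · by_cases e20 : 2 ^ a * 3 ^ b * 5 ^ c = 20
              · rw [e20]; exact stops20
              by_cases e30 : 2 ^ a * 3 ^ b * 5 ^ c = 30
              · rw [e30]; exact stops30
              by_cases e40 : 2 ^ a * 3 ^ b * 5 ^ c = 40
              · rw [e40]; exact stops40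
              exact absurd (odd5 a b c ha hab ho e20 e30 e40) hm
        · have ha1 : a = 1 := by omega
          have hb0 : b = 0 := by omega
          subst ha1 hb0
          have hc3 := h rfl rfl
          rw [pow_one, pow_zero, mul_one]
          have : c = 1 ∨ c = 2 ∨ c = 3 := by omega
          rcases this with rfl | rfl | rfl
          · exact Or.inl stops10
          · exact Or.inr meets50
          · exact Or.inr meets250
  · intro b c hb hc
    have h35 := odd35 b c hb hc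
    split_ifs at h35 with h'
    · exact ⟨fun _ => h', fun _ => h35⟩
    · exact ⟨fun hm => absurd hm (not_meets h35), fun hh => absurd hh h'⟩

/-- Classification of the `5`-smooth starting values other than `2 * 5 ^ c` with `c ≥ 4`: the orbit
reaches `1` or a prime power, or is unbounded and meets the orbit of `1488`, never both, and the
second happens exactly in the listed cases. -/
theorem result (a b c : ℕ) (h : a = 1 → b = 0 → c ≤ 3) :
    (Stops (2 ^ a * 3 ^ b * 5 ^ c) ∨ Meets (2 ^ a * 3 ^ b * 5 ^ c)) ∧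
    ¬ (Stops (2 ^ a * 3 ^ b * 5 ^ c) ∧ Meets (2 ^ a * 3 ^ b * 5 ^ c)) ∧
    (Meets (2 ^ a * 3 ^ b * 5 ^ c) ↔
      (1 ≤ a ∧ 1 ≤ b ∧ c = 0 ∧ 5 ≤ a + b) ∨
      (1 ≤ a ∧ (1 ≤ b ∨ 2 ≤ a) ∧ Odd c ∧ 2 ^ a * 3 ^ b * 5 ^ c ≠ 20 ∧
        2 ^ a * 3 ^ b * 5 ^ c ≠ 30 ∧ 2 ^ a * 3 ^ b * 5 ^ c ≠ 40) ∨
      (a = 0 ∧ 1 ≤ b ∧ 1 ≤ c ∧ (Even c ∨ (c = 1 ∧ 2 ≤ b))) ∨
      (a = 1 ∧ b = 0 ∧ (c = 2 ∨ c = 3))) := by
  obtain ⟨p1, p2, p3, p4, p5⟩ := parts
  refine ⟨p1 a b c h, p2 _, ?_⟩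
  constructor
  · intro hm
    rcases Nat.eq_zero_or_pos c with hc0 | hc
    · left
      rcases Nat.eq_zero_or_pos a with ha0 | ha
      · exfalso
        rw [ha0, hc0, pow_zero, one_mul, pow_zero, mul_one] at hm
        rcases Nat.eq_zero_or_pos b with rfl | hb
        · exact not_meets (stops_self (Or.inl rfl)) hm
        · exact not_meets (stops_self (Or.inr ((Nat.prime_three).isPrimePow.pow (by omega)))) hm
      · rcases Nat.eq_zero_or_pos b with hb0 | hb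
        · exfalso
          rw [hb0, hc0, pow_zero, mul_one, pow_zero, mul_one] at hm
          exact not_meets (stops_self (Or.inr ((Nat.prime_two).isPrimePow.pow (by omega)))) hm
        · rw [hc0, pow_zero, mul_one] at hm
          exact ⟨ha, hb, hc0, (p3 a b ha hb).1 hm⟩
    · right
      rcases Nat.eq_zero_or_pos a with ha0 | ha
      · rcases Nat.eq_zero_or_pos b with hb0 | hb
        · exfalso
          rw [ha0, hb0, pow_zero, one_mul, pow_zero, one_mul] at hm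
          exact not_meets (stops_self (Or.inr
            ((by norm_num : Nat.Prime 5).isPrimePow.pow (by omega)))) hm
        · right; left
          rw [ha0, pow_zero, one_mul] at hm
          exact ⟨ha0, hb, hc, (p5 b c hb hc).1 hm⟩
      · by_cases hab : 1 ≤ b ∨ 2 ≤ a
        · left
          exact ⟨ha, hab, (p4 a b c ha hab hc).1 hm⟩
        · right; right
          have ha1 : a = 1 := by omega
          have hb0 : b = 0 := by omega
          have hc3 := h ha1 hb0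
          refine ⟨ha1, hb0, ?_⟩
          have : c = 1 ∨ c = 2 ∨ c = 3 := by omega
          rcases this with hc1 | hc2 | hc3
          · exfalso
            rw [ha1, hb0, hc1, pow_one, pow_zero, mul_one] at hm
            exact not_meets stops10 hm
          · exact Or.inl hc2
          · exact Or.inr hc3
  · rintro (⟨ha, hb, rfl, hab⟩ | ⟨ha, hab, ho, hn⟩ | ⟨rfl, hb, hc, hcc⟩ | ⟨rfl, rfl, rfl | rfl⟩)
    · rw [pow_zero, mul_one]
      exact (p3 a b ha hb).2 hab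
    · exact (p4 a b c ha hab ho.pos).2 ⟨ho, hn⟩
    · rw [pow_zero, one_mul]
      exact (p5 b c hb hc).2 hcc
    · rw [pow_one, pow_zero, mul_one]
      exact meets50
    · rw [pow_one, pow_zero, mul_one]
      exact meets250

end Pool.Agent.Results.MP_bacbeb_nt.FiveSmooth
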